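import Pool.Agent.H10.TL.Lev

/-!
# The tower lemma

`M = ⟨x_h, h ∈ I | [x_(g j), d_j x_(lab j) d_j⁻¹], j ∈ J⟩`, where the second element is a word in generators of smaller level and
`x_(lab j)` has the parity different from `x_(g j)`. Then the intersection of the kernels of the two projections of `M` to free
groups, which kill the generators of one parity, is a free group.
-/

set_option autoImplicit false

namespace Pool.Agent.H10.TL

open Pool.Agent.H98.FJ

theorem IsBasis.restrict {G : Type} [Group G] {T : Set G} {H : Subgroup G} (h : IsBasis T H) :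
    IsBasis {k : H | (k : G) ∈ T} ⊤ := by
  have hT : ∀ t : T, (t : G) ∈ H := by
    intro t
    rw [← h.2]
    exact ⟨FreeGroup.of t, by rw [FreeGroup.lift_apply_of]⟩
  let v : T → H := fun t => ⟨t, hT t⟩
  have h1 : H.subtype.comp (FreeGroup.lift v) = FreeGroup.lift (fun t : T => (t : G)) := by
    ext1 t
    simp [v]
  have h2 : FB v (⊤ : Subgroup H) := by
    refine ⟨?_, ?_⟩
    · have h3 : Function.Injective (H.subtype.comp (FreeGroup.lift v)) := by
        rw [h1]
        exact h.1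
      intro a b hab
      apply h3
      rw [MonoidHom.comp_apply, MonoidHom.comp_apply, hab]
    · rw [eq_top_iff]
      intro k _
      have h3 : (k : G) ∈ (FreeGroup.lift (fun t : T => (t : G))).range := by
        rw [h.2]
        exact k.2
      obtain ⟨w, hw⟩ := h3
      refine ⟨w, Subtype.ext ?_⟩
      rw [← hw, ← h1]
      rfl
  have h3 := h2.set
  have h4 : Set.range v = {k : H | (k : G) ∈ T} := by
    ext k
    constructor
    · rintro ⟨t, rfl⟩
      exact t.2
    · intro hk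
      exact ⟨⟨k, hk⟩, Subtype.ext rfl⟩
  rw [h4] at h3
  exact h3

namespace TD

variable {I J : Type} (D : TD I J)

theorem exists_par (s : ℕ) : ∃ e, ∀ h, D.ℓ h = s → D.par h = e := by
  by_cases hs : ∃ h, D.ℓ h = s
  · obtain ⟨h0, hh0⟩ := hs
    exact ⟨D.par h0, fun h hh => D.hlev h h0 (hh.trans hh0.symm)⟩
  · exact ⟨true, fun h hh => absurd ⟨h, hh⟩ hs⟩

theorem pi_Ms_le (e : Bool) (s : ℕ) :
    (D.Ms s).map (D.pi e) ≤ Subgroup.closure {x | ∃ h, D.ℓ h < s ∧ x = FreeGroup.of h} := by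
  rw [Ms, MonoidHom.map_closure, Subgroup.closure_le]
  rintro _ ⟨_, ⟨h, hh, rfl⟩, rfl⟩
  rw [pi_x]
  by_cases h1 : D.par h = e
  · rw [if_pos h1]
    exact Subgroup.subset_closure ⟨h, hh, rfl⟩
  · rw [if_neg h1]
    exact Subgroup.one_mem _

theorem pi_C {h : I} {y : D.M} (hy : y ∈ D.C h) : D.pi (D.par h) y = 1 := by
  induction hy using Subgroup.closure_induction with
  | mem y hy =>
    obtain ⟨j, rfl, rfl⟩ := hy
    have h5 : D.pi (D.par (D.g j)) (D.q (FreeGroup.of (D.lab j))) = 1 := by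
      change D.pi _ (D.x _) = _
      rw [pi_x, if_neg (D.hpar j)]
    rw [c, map_mul, map_mul, map_mul, map_mul, map_inv, map_inv, h5, mul_one, mul_inv_cancel]
  | one => rw [map_one]
  | mul a b _ _ ha hb => rw [map_mul, ha, hb, mul_one]
  | inv a _ ha => rw [map_inv, ha, inv_one]

theorem stepM (s : ℕ) (S : Set D.M) (hS : IsBasis S (D.R ⊓ D.Ms s)) :
    ∃ T, S ⊆ T ∧ IsBasis T (D.R ⊓ D.Ms (s + 1)) := by
  obtain ⟨e, he⟩ := D.exists_par s
  let K : Subgroup D.M := D.R ⊓ D.Ms s
  let inc : K →* D.Ms s := Subgroup.inclusion inf_le_right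
  let σ : K →* Equiv.Perm (D.B s) := (D.sig s).comp inc
  let V : Subgroup (FreeGroup I) := (D.Ms s).map (D.pi e)
  let B' : Type := {h : I // D.ℓ h = s} × V
  let κ : D.B s → B' := fun b => (b.1, Quotient.liftOn' b.2 (fun m => (⟨D.pi e m, ⟨m, m.2, rfl⟩⟩ : V)) (by
    intro m m' h
    rw [QuotientGroup.leftRel_apply] at h
    have h1 : (m : D.M)⁻¹ * m' ∈ D.C b.1.1 := h
    have h2 := D.pi_C h1
    rw [he _ b.1.2, map_mul, map_inv, inv_mul_eq_one] at h2
    exact Subtype.ext h2))
  have hκb : ∀ h m, κ (D.bb s h m) = (h, ⟨D.pi e m, ⟨m, m.2, rfl⟩⟩) := fun h m => rfl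
  have hκ : Function.Surjective κ := by
    rintro ⟨h, _, ⟨m, hm, rfl⟩⟩
    exact ⟨D.bb s h ⟨m, hm⟩, rfl⟩
  have hinv : ∀ (k : K) (b : D.B s), κ (σ k b) = κ b := by
    intro k b
    obtain ⟨h, m, rfl⟩ := D.bb_surj b
    change κ (D.sig s (inc k) (D.bb s h m)) = _
    rw [sig_bb, hκb, hκb]
    have h1 : D.pi e ((inc k * m : D.Ms s) : D.M) = D.pi e m := by
      rw [Subgroup.coe_mul, map_mul]
      have h2 : D.pi e (inc k : D.M) = 1 := D.mem_R.1 k.2.1 e
      rw [h2, one_mul]
    simp only [h1]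
  have hfree : ∀ (k : K) (b : D.B s), σ k b = b → k = 1 := by
    intro k b hk
    obtain ⟨h, m, rfl⟩ := D.bb_surj b
    change D.sig s (inc k) (D.bb s h m) = _ at hk
    rw [sig_bb, bb_eq] at hk
    have h2 : ((inc k * m : D.Ms s) : D.M)⁻¹ * m = (m : D.M)⁻¹ * (k : D.M)⁻¹ * m := by
      rw [Subgroup.coe_mul, mul_inv_rev]
      rfl
    rw [h2] at hk
    have h3 : D.pi (!(D.par h.1)) ((m : D.M)⁻¹ * (k : D.M)⁻¹ * m) = 1 := by
      rw [map_mul, map_mul, map_inv, map_inv, D.mem_R.1 k.2.1, inv_one, mul_one, inv_mul_cancel]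
    have h4 := D.C_inj hk h3
    have h5 : (k : D.M) = 1 := by
      have h6 : (k : D.M) = ((m : D.M) * ((m : D.M)⁻¹ * (k : D.M)⁻¹ * m) * (m : D.M)⁻¹)⁻¹ := by group
      rw [h6, h4]
      group
    exact Subtype.ext h5
  obtain ⟨T, hT, hST⟩ := step {k : K | (k : D.M) ∈ S} hS.restrict σ hfree κ hκ hinv
  -- the homomorphism to `M`
  let ν : FreeGroup (D.B s) ⋊[permAct σ] K → D.SD s := fun z => ⟨z.left, inc z.right⟩
  let P : FreeGroup (D.B s) ⋊[permAct σ] K →* D.M :=
    SemidirectProduct.lift (FreeGroup.lift (D.psiF s)) K.subtype (by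
      intro k
      ext1 b
      obtain ⟨h, m, rfl⟩ := D.bb_surj b
      simp only [MonoidHom.comp_apply, MulEquiv.coe_toMonoidHom, permAct_of, FreeGroup.lift_apply_of,
        MulAut.conj_apply, Subgroup.coe_subtype]
      change D.psiF s (D.sig s (inc k) (D.bb s h m)) = _
      rw [sig_bb, psiF_bb, psiF_bb, Subgroup.coe_mul]
      have hik : (inc k : D.M) = k := rfl
      rw [hik]
      group)
  have hPν : ∀ z, P z = D.Psi s (ν z) := by
    intro z
    rw [Psi_eq]
    conv_lhs => rw [← SemidirectProduct.inl_left_mul_inr_right z]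
    rw [map_mul]
    simp only [P, SemidirectProduct.lift_inl, SemidirectProduct.lift_inr, Subgroup.coe_subtype]
    rfl
  have hPinj : Function.Injective P := by
    intro z z' h
    rw [hPν, hPν] at h
    have h1 := D.Psi_inj s h
    have h2 : z.left = z'.left := congrArg (fun w : D.SD s => w.left) h1
    have h3 : inc z.right = inc z'.right := congrArg (fun w : D.SD s => w.right) h1
    have h4 : z.right = z'.right := Subgroup.inclusion_injective _ h3
    exact SemidirectProduct.ext h2 h4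
  have hchi := D.chi_inj s V (D.pi_Ms_le e s)
  have hpiψ : ∀ f : FreeGroup (D.B s), D.pi e (FreeGroup.lift (D.psiF s) f) =
      FreeGroup.lift (fun p : {h : I // D.ℓ h = s} × V =>
        (p.2 : FreeGroup I) * FreeGroup.of p.1.1 * (p.2 : FreeGroup I)⁻¹) (FreeGroup.map κ f) := by
    intro f
    have : (D.pi e).comp (FreeGroup.lift (D.psiF s)) = (FreeGroup.lift (fun p : {h : I // D.ℓ h = s} × V =>
        (p.2 : FreeGroup I) * FreeGroup.of p.1.1 * (p.2 : FreeGroup I)⁻¹)).comp (FreeGroup.map κ) := by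
      ext1 b
      obtain ⟨h, m, rfl⟩ := D.bb_surj b
      simp only [MonoidHom.comp_apply, FreeGroup.lift_apply_of, FreeGroup.map.of, psiF_bb, hκb, map_mul, map_inv,
        pi_x]
      rw [if_pos (he _ h.2)]
    exact DFunLike.congr_fun this f
  have hpiψ' : ∀ f : FreeGroup (D.B s), D.pi (!e) (FreeGroup.lift (D.psiF s) f) = 1 := by
    intro f
    have : (D.pi (!e)).comp (FreeGroup.lift (D.psiF s)) = 1 := by
      ext1 b
      obtain ⟨h, m, rfl⟩ := D.bb_surj b
      simp only [MonoidHom.comp_apply, FreeGroup.lift_apply_of, psiF_bb, map_mul, map_inv, pi_x,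
        MonoidHom.one_apply]
      rw [if_neg (by rw [he _ h.2]; cases e <;> simp), mul_one, mul_inv_cancel]
    exact DFunLike.congr_fun this f
  have htoB : ∀ z : FreeGroup (D.B s) ⋊[permAct σ] K, toB σ κ hinv z = FreeGroup.map κ z.left := by
    intro z
    conv_lhs => rw [← SemidirectProduct.inl_left_mul_inr_right z]
    rw [map_mul]
    simp only [toB, SemidirectProduct.lift_inl, SemidirectProduct.lift_inr, MonoidHom.one_apply, mul_one]
  have hP : ∀ z, P z = FreeGroup.lift (D.psiF s) z.left * (z.right : D.M) := by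
    intro z
    rw [hPν, Psi_eq]
    rfl
  have hker : (toB σ κ hinv).ker.map P = D.R ⊓ D.Ms (s + 1) := by
    ext y
    constructor
    · rintro ⟨z, hz, rfl⟩
      have hz' : FreeGroup.map κ z.left = 1 := by
        rw [← htoB]
        exact hz
      have h1 : ∀ e', D.pi e' (z.right : D.M) = 1 := D.mem_R.1 z.right.2.1
      refine ⟨D.mem_R.2 ?_, ?_⟩
      · intro e'
        rw [hP, map_mul, h1, mul_one]
        by_cases h2 : e' = e
        · rw [h2, hpiψ, hz', map_one]
        · have h3 : e' = !e := by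
            cases e' <;> cases e <;> simp_all
          rw [h3, hpiψ']
      · rw [hP]
        exact Subgroup.mul_mem _ (D.lift_psi_mem s _) (D.Ms_mono (Nat.le_succ s) z.right.2.2)
    · rintro ⟨hyR, hyM⟩
      obtain ⟨w, rfl⟩ := D.Psi_surj s hyM
      have hm : (w.right : D.M) ∈ D.R := by
        rw [mem_R]
        intro e'
        rw [← rr_Psi, pi_rr, D.mem_R.1 hyR, map_one]
      refine ⟨⟨w.left, ⟨w.right, hm, w.right.2⟩⟩, ?_, ?_⟩
      · change toB σ κ hinv _ = 1
        rw [htoB]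
        apply hchi
        rw [map_one, ← hpiψ]
        have h1 := D.mem_R.1 hyR e
        rw [Psi_eq, map_mul, D.mem_R.1 hm, mul_one] at h1
        exact h1
      · rw [hP, Psi_eq]
  refine ⟨P '' T, ?_, ?_⟩
  · intro y hy
    have hyK : y ∈ K := by
      have h1 : (FreeGroup.lift (fun t : S => (t : D.M))).range = K := hS.2
      rw [← h1]
      exact ⟨FreeGroup.of ⟨y, hy⟩, by rw [FreeGroup.lift_apply_of]⟩
    refine ⟨SemidirectProduct.inr ⟨y, hyK⟩, hST ⟨⟨y, hyK⟩, hy, rfl⟩, ?_⟩
    simp only [P, SemidirectProduct.lift_inr, Subgroup.coe_subtype]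
  · rw [← hker]
    exact hT.map P hPinj

theorem exists_bases : ∃ S : ℕ → Set D.M, Monotone S ∧ ∀ s, IsBasis (S s) (D.R ⊓ D.Ms s) := by
  have h0 : IsBasis (∅ : Set D.M) (D.R ⊓ D.Ms 0) := by
    have h1 : D.R ⊓ D.Ms 0 = ⊥ := by
      rw [eq_bot_iff]
      refine le_trans inf_le_right ?_
      rw [Ms, Subgroup.closure_le]
      rintro y ⟨h, hh, -⟩
      exact absurd hh (Nat.not_lt_zero _)
    rw [h1]
    exact IsBasis.bot
  let F : (s : ℕ) → {S : Set D.M // IsBasis S (D.R ⊓ D.Ms s)} := fun s =>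
    Nat.rec ⟨∅, h0⟩ (fun s S => ⟨(D.stepM s S.1 S.2).choose, (D.stepM s S.1 S.2).choose_spec.2⟩) s
  refine ⟨fun s => (F s).1, monotone_nat_of_le_succ fun s => ?_, fun s => (F s).2⟩
  exact (D.stepM s (F s).1 (F s).2).choose_spec.1

theorem R_basis : ∃ T, IsBasis T D.R := by
  obtain ⟨S, hS, hb⟩ := D.exists_bases
  refine ⟨_, IsBasis.union S hS _ _ hb ?_⟩
  intro y
  constructor
  · intro hy
    obtain ⟨s, hs⟩ := D.exists_Ms y
    exact ⟨s, hy, hs⟩
  · rintro ⟨s, hs, -⟩
    exact hs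

theorem R_free : IsFreeGroup D.R := by
  obtain ⟨T, hT⟩ := D.R_basis
  exact FB.free hT

end TD

end Pool.Agent.H10.TL
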