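import Pool.Agent.H98.FJ.P.Ext0

/-!
# Bases of free subgroups

`FB v H`: the family `v` is a basis of the subgroup `H`. `IsBasis T H`: the set `T` is a basis of the subgroup `H`.
-/

set_option autoImplicit false

namespace Pool.Agent.H10.TL

/-- the family `v` is a basis of the subgroup `H` -/
def FB {ι G : Type} [Group G] (v : ι → G) (H : Subgroup G) : Prop :=
  Function.Injective (FreeGroup.lift v) ∧ (FreeGroup.lift v).range = H

/-- the set `T` is a basis of the subgroup `H` -/
def IsBasis {G : Type} [Group G] (T : Set G) (H : Subgroup G) : Prop :=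
  FB (fun t : T => (t : G)) H

theorem FB.inj {ι G : Type} [Group G] {v : ι → G} {H : Subgroup G} (h : FB v H) : Function.Injective v := by
  intro a b hab
  have : FreeGroup.lift v (FreeGroup.of a) = FreeGroup.lift v (FreeGroup.of b) := by
    rw [FreeGroup.lift_apply_of, FreeGroup.lift_apply_of, hab]
  exact FreeGroup.of_injective (h.1 this)

theorem FB.congr {ι κ G : Type} [Group G] {v : κ → G} {H : Subgroup G} (h : FB v H) (e : ι ≃ κ) :
    FB (fun i => v (e i)) H := by
  have h1 : FreeGroup.lift (fun i => v (e i)) = (FreeGroup.lift v).comp (FreeGroup.freeGroupCongr e).toMonoidHom := by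
    ext i
    simp
  refine ⟨?_, ?_⟩
  · rw [h1]
    exact h.1.comp (FreeGroup.freeGroupCongr e).injective
  · rw [h1, MonoidHom.range_comp, ← h.2]
    have : (FreeGroup.freeGroupCongr e).toMonoidHom.range = ⊤ :=
      MonoidHom.range_eq_top.2 (FreeGroup.freeGroupCongr e).surjective
    rw [this]
    ext x
    simp

theorem FB.set {ι G : Type} [Group G] {v : ι → G} {H : Subgroup G} (h : FB v H) : IsBasis (Set.range v) H := by
  have h1 := h.congr (Equiv.ofInjective v h.inj).symm
  have h2 : (fun t : Set.range v => v ((Equiv.ofInjective v h.inj).symm t)) = fun t : Set.range v => (t : G) := by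
    funext t
    exact Equiv.apply_ofInjective_symm h.inj t
  rw [h2] at h1
  exact h1

theorem FB.map {ι G G' : Type} [Group G] [Group G'] {v : ι → G} {H : Subgroup G} (h : FB v H) (φ : G →* G')
    (hφ : Function.Injective φ) : FB (fun i => φ (v i)) (H.map φ) := by
  have h1 : FreeGroup.lift (fun i => φ (v i)) = φ.comp (FreeGroup.lift v) := by
    ext i
    simp
  refine ⟨?_, ?_⟩
  · rw [h1]
    exact hφ.comp h.1
  · rw [h1, MonoidHom.range_comp, h.2]

theorem IsBasis.map {G G' : Type} [Group G] [Group G'] {T : Set G} {H : Subgroup G} (h : IsBasis T H) (φ : G →* G')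
    (hφ : Function.Injective φ) : IsBasis (φ '' T) (H.map φ) := by
  have h1 := (FB.map h φ hφ).set
  have h2 : Set.range (fun t : T => φ (t : G)) = φ '' T := by
    ext x
    simp
  rw [h2] at h1
  exact h1

/-- a subgroup with a basis is free -/
theorem FB.free {ι G : Type} [Group G] {v : ι → G} {H : Subgroup G} (h : FB v H) : IsFreeGroup H := by
  have e : FreeGroup ι ≃* H := (MonoidHom.ofInjective h.1).trans (MulEquiv.subgroupCongr h.2)
  exact IsFreeGroup.ofMulEquiv e

theorem IsBasis.bot {G : Type} [Group G] : IsBasis (∅ : Set G) ⊥ := by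
  have h0 : ∀ x : FreeGroup (∅ : Set G), x = 1 := by
    intro x
    induction x using FreeGroup.induction_on with
    | C1 => rfl
    | of x => exact absurd x.2 (Set.notMem_empty _)
    | inv_of x _ => exact absurd x.2 (Set.notMem_empty _)
    | mul x y hx hy => rw [hx, hy, mul_one]
  refine ⟨?_, ?_⟩
  · intro a b _
    rw [h0 a, h0 b]
  · rw [eq_bot_iff]
    rintro _ ⟨x, rfl⟩
    rw [h0 x, map_one]
    exact Subgroup.mem_bot.2 rfl

/-- finite support of the elements of a free group -/
theorem exists_stage {G : Type} [Group G] (S : ℕ → Set G) (hS : Monotone S) (w : FreeGroup (⋃ s, S s : Set G)) :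
    ∃ (s : ℕ) (w' : FreeGroup (S s)), ∀ s' : ℕ, s ≤ s' → ∃ w'' : FreeGroup (S s'),
      FreeGroup.lift (fun t : S s' => (t : G)) w'' = FreeGroup.lift (fun t : (⋃ s, S s : Set G) => (t : G)) w ∧
      (w'' = 1 → w = 1) := by
  suffices h : ∃ s : ℕ, ∀ s' : ℕ, s ≤ s' → ∃ w'' : FreeGroup (S s'),
      FreeGroup.map (Set.inclusion (Set.subset_iUnion S s')) w'' = w by
    obtain ⟨s, hs⟩ := h
    refine ⟨s, 1, fun s' hs' => ?_⟩
    obtain ⟨w'', hw⟩ := hs s' hs'
    refine ⟨w'', ?_, ?_⟩
    · rw [← hw]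
      have : FreeGroup.lift (fun t : S s' => (t : G)) =
          (FreeGroup.lift (fun t : (⋃ s, S s : Set G) => (t : G))).comp
            (FreeGroup.map (Set.inclusion (Set.subset_iUnion S s'))) := by
        ext i
        simp
      rw [this]
      rfl
    · intro h1
      rw [← hw, h1, map_one]
  have hinv : ∀ w : FreeGroup (⋃ s, S s : Set G), (∃ s : ℕ, ∀ s' : ℕ, s ≤ s' → ∃ w'' : FreeGroup (S s'),
      FreeGroup.map (Set.inclusion (Set.subset_iUnion S s')) w'' = w) → ∃ s : ℕ, ∀ s' : ℕ, s ≤ s' →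
      ∃ w'' : FreeGroup (S s'), FreeGroup.map (Set.inclusion (Set.subset_iUnion S s')) w'' = w⁻¹ := by
    rintro w ⟨s, hs⟩
    refine ⟨s, fun s' hs' => ?_⟩
    obtain ⟨w'', hw⟩ := hs s' hs'
    exact ⟨w''⁻¹, by rw [map_inv, hw]⟩
  induction w using FreeGroup.induction_on with
  | C1 => exact ⟨0, fun s' _ => ⟨1, map_one _⟩⟩
  | of x =>
    obtain ⟨s, hs⟩ := Set.mem_iUnion.1 x.2
    refine ⟨s, fun s' hs' => ⟨FreeGroup.of ⟨x, hS hs' hs⟩, ?_⟩⟩
    rw [FreeGroup.map.of]
  | inv_of x hx => exact hinv _ hx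
  | mul a b ha hb =>
    obtain ⟨s, hs⟩ := ha
    obtain ⟨t, ht⟩ := hb
    refine ⟨max s t, fun s' hs' => ?_⟩
    obtain ⟨a', ha'⟩ := hs s' (le_trans (le_max_left _ _) hs')
    obtain ⟨b', hb'⟩ := ht s' (le_trans (le_max_right _ _) hs')
    exact ⟨a' * b', by rw [map_mul, ha', hb']⟩

/-- the union of nested bases -/
theorem IsBasis.union {G : Type} [Group G] (S : ℕ → Set G) (hS : Monotone S) (H : ℕ → Subgroup G) (K : Subgroup G)
    (hb : ∀ s, IsBasis (S s) (H s)) (hK : ∀ x, x ∈ K ↔ ∃ s, x ∈ H s) : IsBasis (⋃ s, S s) K := by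
  refine ⟨?_, ?_⟩
  · rw [injective_iff_map_eq_one]
    intro w hw
    obtain ⟨s, -, hs⟩ := exists_stage S hS w
    obtain ⟨w'', h1, h2⟩ := hs s le_rfl
    apply h2
    apply (hb s).1
    rw [h1, hw, map_one]
  · ext x
    rw [hK]
    constructor
    · rintro ⟨w, rfl⟩
      obtain ⟨s, -, hs⟩ := exists_stage S hS w
      obtain ⟨w'', h1, h2⟩ := hs s le_rfl
      refine ⟨s, ?_⟩
      rw [← (hb s).2, ← h1]
      exact ⟨w'', rfl⟩
    · rintro ⟨s, hs⟩
      rw [← (hb s).2] at hs
      obtain ⟨w, rfl⟩ := hs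
      refine ⟨FreeGroup.map (Set.inclusion (Set.subset_iUnion S s)) w, ?_⟩
      have : FreeGroup.lift (fun t : S s => (t : G)) =
          (FreeGroup.lift (fun t : (⋃ s, S s : Set G) => (t : G))).comp
            (FreeGroup.map (Set.inclusion (Set.subset_iUnion S s))) := by
        ext i
        simp
      rw [this]
      rfl

end Pool.Agent.H10.TL
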