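import Pool.Agent.H54.MN.Magnus

/-!
# Conjugates of distinct basis elements of a free group are free

An endomorphism of a free group which maps every basis element to a conjugate of itself is injective. Proof: it acts
trivially on the successive quotients of the powers of the augmentation ideal, and these powers have trivial intersection.
-/

set_option autoImplicit false

namespace Pool.Agent.H10.TL

open Classical Pool.Agent.H54.Magnus

/-- the functions which vanish on the short words -/
def Vm {J : Type} (m : ℕ) (f : List J → ℤ) : Prop := ∀ w : List J, w.length < m → f w = 0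

private theorem invX_eq {J : Type} (x : J) (m : ℕ) (f : List J → ℤ) (hf : Vm m f) :
    ∀ w : List J, w.length ≤ m → invX x f w = f w := by
  intro w
  induction w with
  | nil => intro _; rfl
  | cons y w ih =>
    intro hw
    have h1 : w.length < m := by simpa using hw
    simp only [invX]
    rw [ih h1.le, hf w h1]
    simp

private theorem rho_eq_of {J : Type} (g : FreeGroup J) : ∀ (m : ℕ) (f : List J → ℤ), Vm m f →
    ∀ w : List J, w.length ≤ m → rho g f w = f w := by
  induction g using FreeGroup.induction_on with
  | C1 =>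
    intro m f _ w _
    rw [rho_one]
  | of x =>
    intro m f hf w hw
    rw [rho_of]
    cases w with
    | nil => rfl
    | cons y w =>
      have h1 : w.length < m := by simpa using hw
      simp only [mulX]
      rw [hf w h1]
      simp
  | inv_of x _ =>
    intro m f hf w hw
    rw [rho_of_inv]
    exact invX_eq x m f hf w hw
  | mul g h hg hh =>
    intro m f hf w hw
    rw [rho_mul]
    have h2 : Vm m (rho h f) := by
      intro v hv
      rw [hh m f hf v hv.le, hf v hv]
    rw [hg m _ h2 w hw, hh m f hf w hw]

private theorem rho_add {J : Type} (g : FreeGroup J) (f f' : List J → ℤ) :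
    rho g (f + f') = rho g f + rho g f' := by
  funext w
  rw [Pi.add_apply, rho_eq, rho_eq, rho_eq]
  exact conv_add_right f f' (mu g) w

/-- the action by additive maps -/
noncomputable def act {J : Type} : FreeGroup J →* AddMonoid.End (List J → ℤ) where
  toFun g := AddMonoidHom.mk' (fun f => rho g f) (fun f f' => rho_add g f f')
  map_one' := by
    ext f : 1
    exact rho_one f
  map_mul' g h := by
    ext f : 1
    exact rho_mul g h f

/-- the group ring -/
abbrev GR (J : Type) : Type := MonoidAlgebra ℤ (FreeGroup J)

/-- the action of the group ring -/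
noncomputable def Act {J : Type} : GR J →ₐ[ℤ] AddMonoid.End (List J → ℤ) :=
  MonoidAlgebra.lift ℤ _ _ act

/-- the group elements in the group ring -/
noncomputable def el {J : Type} (g : FreeGroup J) : GR J := MonoidAlgebra.of ℤ _ g

theorem el_mul {J : Type} (g h : FreeGroup J) : el (g * h) = el g * el h := map_mul _ _ _
theorem el_one {J : Type} : el (1 : FreeGroup J) = 1 := map_one _

theorem Act_el {J : Type} (g : FreeGroup J) (f : List J → ℤ) : Act (el g) f = rho g f := by
  have : Act (el g) = act g := by
    simp [Act, el]
  rw [this]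
  rfl

/-- the augmentation ideal -/
noncomputable def Del (J : Type) : Submodule ℤ (GR J) := Submodule.span ℤ (Set.range fun g : FreeGroup J => el g - 1)

theorem el_mem {J : Type} (g : FreeGroup J) : el g - 1 ∈ Del J := Submodule.subset_span ⟨g, rfl⟩

theorem mul_el {J : Type} (g : FreeGroup J) {y : GR J} (hy : y ∈ Del J) : y * el g ∈ Del J := by
  induction hy using Submodule.span_induction with
  | mem y hy =>
    obtain ⟨h, rfl⟩ := hy
    have : (el h - 1) * el g = (el (h * g) - 1) - (el g - 1) := by
      rw [el_mul]; noncomm_ring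
    simp only [this]
    exact Submodule.sub_mem _ (el_mem _) (el_mem _)
  | zero => rw [zero_mul]; exact Submodule.zero_mem _
  | add y z _ _ h1 h2 => rw [add_mul]; exact Submodule.add_mem _ h1 h2
  | smul c y _ h1 => rw [smul_mul_assoc]; exact Submodule.smul_mem _ c h1

theorem el_mul_mem {J : Type} (g : FreeGroup J) {y : GR J} (hy : y ∈ Del J) : el g * y ∈ Del J := by
  induction hy using Submodule.span_induction with
  | mem y hy =>
    obtain ⟨h, rfl⟩ := hy
    have : el g * (el h - 1) = (el (g * h) - 1) - (el g - 1) := by
      rw [el_mul]; noncomm_ring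
    simp only [this]
    exact Submodule.sub_mem _ (el_mem _) (el_mem _)
  | zero => rw [mul_zero]; exact Submodule.zero_mem _
  | add y z _ _ h1 h2 => rw [mul_add]; exact Submodule.add_mem _ h1 h2
  | smul c y _ h1 => rw [mul_smul_comm]; exact Submodule.smul_mem _ c h1

theorem mul_mem_two {J : Type} {y z : GR J} (hy : y ∈ Del J) (hz : z ∈ Del J) : y * z ∈ Del J ^ 2 := by
  rw [pow_two]
  exact Submodule.mul_mem_mul hy hz

theorem two_mul_el {J : Type} (g : FreeGroup J) {y : GR J} (hy : y ∈ Del J ^ 2) : y * el g ∈ Del J ^ 2 := by
  rw [pow_two] at hy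
  induction hy using Submodule.mul_induction_on' with
  | mem_mul_mem m hm n hn =>
    rw [mul_assoc]
    exact mul_mem_two hm (mul_el g hn)
  | add y _ z _ h1 h2 => rw [add_mul]; exact Submodule.add_mem _ h1 h2

theorem el_mul_two {J : Type} (g : FreeGroup J) {y : GR J} (hy : y ∈ Del J ^ 2) : el g * y ∈ Del J ^ 2 := by
  rw [pow_two] at hy
  induction hy using Submodule.mul_induction_on' with
  | mem_mul_mem m hm n hn =>
    rw [← mul_assoc]
    exact mul_mem_two (el_mul_mem g hm) hn
  | add y _ z _ h1 h2 => rw [mul_add]; exact Submodule.add_mem _ h1 h2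

theorem sq_le {J : Type} : Del J * Del J ≤ Del J := by
  rw [Submodule.mul_le]
  intro y hy z hz
  induction hz using Submodule.span_induction with
  | mem z hz =>
    obtain ⟨h, rfl⟩ := hz
    have : y * (el h - 1) = y * el h - y := by noncomm_ring
    simp only [this]
    exact Submodule.sub_mem _ (mul_el h hy) hy
  | zero => rw [mul_zero]; exact Submodule.zero_mem _
  | add z z' _ _ h1 h2 => rw [mul_add]; exact Submodule.add_mem _ h1 h2
  | smul c z _ h1 => rw [mul_smul_comm]; exact Submodule.smul_mem _ c h1

theorem pow_succ_le {J : Type} (k : ℕ) : Del J ^ (k + 2) ≤ Del J ^ (k + 1) := by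
  have h : Del J ^ (k + 2) = Del J ^ k * (Del J * Del J) := by
    rw [← mul_assoc, ← pow_succ, ← pow_succ]
  have h' : Del J ^ (k + 1) = Del J ^ k * Del J := pow_succ _ _
  rw [h, h']
  exact Submodule.mul_le.2 fun m hm n hn => Submodule.mul_mem_mul hm (sq_le hn)

/-- the induced endomorphism of the group ring -/
noncomputable def ind {J : Type} (η : FreeGroup J →* FreeGroup J) : GR J →ₐ[ℤ] GR J :=
  MonoidAlgebra.lift ℤ _ _ ((MonoidAlgebra.of ℤ (FreeGroup J)).comp η)

theorem ind_el {J : Type} (η : FreeGroup J →* FreeGroup J) (g : FreeGroup J) : ind η (el g) = el (η g) := by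
  simp [ind, el]

theorem diff_el {J : Type} (η : FreeGroup J →* FreeGroup J) (ε : J → FreeGroup J)
    (h : ∀ j, η (FreeGroup.of j) = ε j * FreeGroup.of j * (ε j)⁻¹) (g : FreeGroup J) :
    el (η g) - el g ∈ Del J ^ 2 := by
  have key : ∀ a b : FreeGroup J, el (a * b * a⁻¹) - el b ∈ Del J ^ 2 := by
    intro a b
    have e1 : el (a * b * a⁻¹) - el b = ((el a - 1) * (el b - 1) - (el b - 1) * (el a - 1)) * el a⁻¹ := by
      have e2 : el a * el a⁻¹ = 1 := by rw [← el_mul, mul_inv_cancel, el_one]
      have e3 : ((el a - 1) * (el b - 1) - (el b - 1) * (el a - 1)) * el a⁻¹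
          = el a * el b * el a⁻¹ - el b * (el a * el a⁻¹) := by noncomm_ring
      rw [e3, e2, mul_one, el_mul, el_mul]
    rw [e1]
    exact two_mul_el _ (Submodule.sub_mem _ (mul_mem_two (el_mem _) (el_mem _)) (mul_mem_two (el_mem _) (el_mem _)))
  have hinv : ∀ g : FreeGroup J, el (η g) - el g ∈ Del J ^ 2 → el (η g⁻¹) - el g⁻¹ ∈ Del J ^ 2 := by
    intro g hg
    have e1 : el (η g⁻¹) - el g⁻¹ = - (el (η g⁻¹) * (el (η g) - el g) * el g⁻¹) := by
      have e2 : el (η g⁻¹) * el (η g) = 1 := by rw [← el_mul, ← map_mul, inv_mul_cancel, map_one, el_one]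
      have e3 : el g * el g⁻¹ = 1 := by rw [← el_mul, mul_inv_cancel, el_one]
      have e4 : - (el (η g⁻¹) * (el (η g) - el g) * el g⁻¹)
          = el (η g⁻¹) * (el g * el g⁻¹) - (el (η g⁻¹) * el (η g)) * el g⁻¹ := by noncomm_ring
      rw [e4, e2, e3, mul_one, one_mul]
    rw [e1]
    exact Submodule.neg_mem _ (two_mul_el _ (el_mul_two _ hg))
  induction g using FreeGroup.induction_on with
  | C1 =>
    rw [map_one, sub_self]
    exact Submodule.zero_mem _
  | of x =>
    rw [h]
    exact key _ _
  | inv_of x hx => exact hinv _ hx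
  | mul a b ha hb =>
    have e1 : el (η (a * b)) - el (a * b) = (el (η a) - el a) * el (η b) + el a * (el (η b) - el b) := by
      rw [map_mul, el_mul, el_mul]; noncomm_ring
    rw [e1]
    exact Submodule.add_mem _ (two_mul_el _ ha) (el_mul_two _ hb)

theorem diff_pow {J : Type} (η : FreeGroup J →* FreeGroup J) (ε : J → FreeGroup J)
    (h : ∀ j, η (FreeGroup.of j) = ε j * FreeGroup.of j * (ε j)⁻¹) (k : ℕ) :
    ∀ y ∈ Del J ^ (k + 1), ind η y - y ∈ Del J ^ (k + 2) := by
  have h1 : ∀ y ∈ Del J, ind η y - y ∈ Del J ^ 2 := by
    intro y hy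
    induction hy using Submodule.span_induction with
    | mem y hy =>
      obtain ⟨g, rfl⟩ := hy
      have : ind η (el g - 1) - (el g - 1) = el (η g) - el g := by
        rw [map_sub, ind_el, map_one]; abel
      simp only [this]
      exact diff_el η ε h g
    | zero => rw [map_zero, sub_zero]; exact Submodule.zero_mem _
    | add y z _ _ a b =>
      have : ind η (y + z) - (y + z) = (ind η y - y) + (ind η z - z) := by rw [map_add]; abel
      rw [this]; exact Submodule.add_mem _ a b
    | smul c y _ a =>
      have : ind η (c • y) - c • y = c • (ind η y - y) := by rw [map_smul, smul_sub]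
      rw [this]; exact Submodule.smul_mem _ c a
  induction k with
  | zero =>
    intro y hy
    exact h1 y (by simpa using hy)
  | succ k ih =>
    intro y hy
    rw [pow_succ] at hy
    induction hy using Submodule.mul_induction_on' with
    | mem_mul_mem m hm n hn =>
      have e1 : ind η (m * n) - m * n = ind η m * (ind η n - n) + (ind η m - m) * n := by
        rw [map_mul]; noncomm_ring
      rw [e1]
      have h2 : ind η m ∈ Del J ^ (k + 1) := by
        have := Submodule.add_mem _ (pow_succ_le k (ih m hm)) hm
        simpa using this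
      refine Submodule.add_mem _ ?_ ?_
      · have : Del J ^ (k + 1 + 2) = Del J ^ (k + 1) * Del J ^ 2 := pow_add _ _ _
        rw [this]
        exact Submodule.mul_mem_mul h2 (h1 n hn)
      · have : Del J ^ (k + 1 + 2) = Del J ^ (k + 2) * Del J := pow_succ _ _
        rw [this]
        exact Submodule.mul_mem_mul (ih m hm) hn
    | add y _ z _ a b =>
      have : ind η (y + z) - (y + z) = (ind η y - y) + (ind η z - z) := by rw [map_add]; abel
      rw [this]; exact Submodule.add_mem _ a b

theorem Act_pow {J : Type} (k : ℕ) : ∀ y ∈ Del J ^ (k + 1), ∀ (m : ℕ) (f : List J → ℤ), Vm m f →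
    Vm (m + (k + 1)) (Act y f) := by
  have h1 : ∀ y ∈ Del J, ∀ (m : ℕ) (f : List J → ℤ), Vm m f → Vm (m + 1) (Act y f) := by
    intro y hy
    induction hy using Submodule.span_induction with
    | mem y hy =>
      obtain ⟨g, rfl⟩ := hy
      intro m f hf w hw
      have e1 : Act (el g - 1) f = rho g f - f := by
        rw [map_sub, map_one]
        change Act (el g) f - f = _
        rw [Act_el]
      rw [e1, Pi.sub_apply, rho_eq_of g m f hf w (by omega), sub_self]
    | zero =>
      intro m f hf w hw
      rw [map_zero]; rfl
    | add y z _ _ a b =>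
      intro m f hf w hw
      rw [map_add]
      change Act y f w + Act z f w = 0
      rw [a m f hf w hw, b m f hf w hw, add_zero]
    | smul c y _ a =>
      intro m f hf w hw
      rw [map_smul]
      change c • (Act y f w) = 0
      rw [a m f hf w hw, smul_zero]
  induction k with
  | zero =>
    intro y hy
    exact h1 y (by simpa using hy)
  | succ k ih =>
    intro y hy
    rw [pow_succ] at hy
    induction hy using Submodule.mul_induction_on' with
    | mem_mul_mem y hy z hz =>
      intro m f hf
      rw [map_mul]
      change Vm _ (Act y (Act z f))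
      have := ih y hy (m + 1) _ (h1 z hz m f hf)
      rwa [show m + (k + 1 + 1) = m + 1 + (k + 1) by omega]
    | add y _ z _ a b =>
      intro m f hf w hw
      rw [map_add]
      change Act y f w + Act z f w = 0
      rw [a m f hf w hw, b m f hf w hw, add_zero]

theorem eq_one_of_forall {J : Type} (g : FreeGroup J) (h : ∀ k, el g - 1 ∈ Del J ^ (k + 1)) : g = 1 := by
  apply mu_injective
  funext w
  have h1 := Act_pow w.length (el g - 1) (h _) 0 del (fun v hv => absurd hv (Nat.not_lt_zero _)) w (by omega)
  have e1 : Act (el g - 1) del = rho g del - del := by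
    rw [map_sub, map_one]
    change Act (el g) del - del = _
    rw [Act_el]
  rw [e1, Pi.sub_apply, sub_eq_zero] at h1
  exact h1

theorem ia_injective {J : Type} (η : FreeGroup J →* FreeGroup J) (ε : J → FreeGroup J)
    (h : ∀ j, η (FreeGroup.of j) = ε j * FreeGroup.of j * (ε j)⁻¹) : Function.Injective η := by
  rw [injective_iff_map_eq_one]
  intro g hg
  apply eq_one_of_forall
  intro k
  induction k with
  | zero => simpa using el_mem g
  | succ k ih =>
    have h1 := diff_pow η ε h k _ ih
    have h2 : ind η (el g - 1) - (el g - 1) = -(el g - 1) := by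
      rw [map_sub, ind_el, map_one, hg, el_one]; abel
    rw [h2] at h1
    exact (Submodule.neg_mem_iff _).1 h1

/-- conjugates of distinct basis elements of a free group are free -/
theorem conj_basis {X J : Type} (δ : J → FreeGroup X) (l : J → X) (hl : Function.Injective l) :
    Function.Injective (FreeGroup.lift fun j => δ j * FreeGroup.of (l j) * (δ j)⁻¹) := by
  let ψ : FreeGroup X →* FreeGroup J :=
    FreeGroup.lift fun x => if hx : ∃ j, l j = x then FreeGroup.of hx.choose else 1
  have hψ : ∀ j, ψ (FreeGroup.of (l j)) = FreeGroup.of j := by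
    intro j
    have hx : ∃ j', l j' = l j := ⟨j, rfl⟩
    simp only [ψ, FreeGroup.lift_apply_of]
    rw [dif_pos hx]
    exact congrArg _ (hl hx.choose_spec)
  have h1 : Function.Injective (ψ.comp (FreeGroup.lift fun j => δ j * FreeGroup.of (l j) * (δ j)⁻¹)) := by
    apply ia_injective _ (fun j => ψ (δ j))
    intro j
    rw [MonoidHom.comp_apply, FreeGroup.lift_apply_of, map_mul, map_mul, map_inv, hψ]
  intro a b hab
  apply h1
  rw [MonoidHom.comp_apply, MonoidHom.comp_apply, hab]

end Pool.Agent.H10.TL
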