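import Pool.Agent.H10.TL.Bas

/-!
# The basis step of the tower lemma

`K` is a group with a basis `S`, acting freely on `B`; `κ : B → B'` is surjective and constant on the orbits. The kernel of
the homomorphism `F(B) ⋊ K → F(B')` has a basis which contains `S`.
-/

set_option autoImplicit false

namespace Pool.Agent.H10.TL

open Pool.Agent.H98.FJ

/-- the projection `F(A ⊔ Y) → F(Y)` -/
def prj (A Y : Type) : FreeGroup (A ⊕ Y) →* FreeGroup Y :=
  FreeGroup.lift (Sum.elim (fun _ => 1) FreeGroup.of)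

/-- the inclusion of `F(Y)` -/
def jn (A Y : Type) : FreeGroup Y →* FreeGroup (A ⊕ Y) := FreeGroup.map Sum.inr

/-- the elements `v a v⁻¹` -/
def cj (A Y : Type) (p : FreeGroup Y × A) : FreeGroup (A ⊕ Y) :=
  jn A Y p.1 * FreeGroup.of (Sum.inl p.2) * (jn A Y p.1)⁻¹

/-- the action of `F(Y)` on `F(Y) × A` -/
def sg (A Y : Type) : FreeGroup Y →* Equiv.Perm (FreeGroup Y × A) where
  toFun g :=
    { toFun := fun p => (g * p.1, p.2)
      invFun := fun p => (g⁻¹ * p.1, p.2)
      left_inv := fun p => by simp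
      right_inv := fun p => by simp }
  map_one' := by ext p <;> simp
  map_mul' g h := by ext p <;> simp [mul_assoc]

/-- the homomorphism from the semidirect product -/
def sdp (A Y : Type) : FreeGroup (FreeGroup Y × A) ⋊[permAct (sg A Y)] FreeGroup Y →* FreeGroup (A ⊕ Y) :=
  SemidirectProduct.lift (FreeGroup.lift (cj A Y)) (jn A Y) (by
    intro g
    ext p
    simp [permAct_of, sg, cj, mul_assoc])

/-- the homomorphism to the semidirect product -/
def sdq (A Y : Type) : FreeGroup (A ⊕ Y) →* FreeGroup (FreeGroup Y × A) ⋊[permAct (sg A Y)] FreeGroup Y :=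
  FreeGroup.lift (Sum.elim (fun a => SemidirectProduct.inl (FreeGroup.of (1, a)))
    (fun y => SemidirectProduct.inr (FreeGroup.of y)))

theorem sdq_jn (A Y : Type) (v : FreeGroup Y) : sdq A Y (jn A Y v) = SemidirectProduct.inr v := by
  have : (sdq A Y).comp (jn A Y) = SemidirectProduct.inr := by
    ext1 y
    simp [sdq, jn]
  exact DFunLike.congr_fun this v

theorem sdq_sdp (A Y : Type) (x : FreeGroup (FreeGroup Y × A) ⋊[permAct (sg A Y)] FreeGroup Y) :
    sdq A Y (sdp A Y x) = x := by
  have h1 : ((sdq A Y).comp (sdp A Y)).comp SemidirectProduct.inl = SemidirectProduct.inl := by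
    ext1 p
    simp only [MonoidHom.comp_apply, sdp, SemidirectProduct.lift_inl, FreeGroup.lift_apply_of, cj, map_mul, map_inv,
      sdq_jn]
    have h2 : sdq A Y (FreeGroup.of (Sum.inl p.2)) = SemidirectProduct.inl (FreeGroup.of (1, p.2)) := by
      simp [sdq]
    have h5 : (SemidirectProduct.inr p.1 : FreeGroup (FreeGroup Y × A) ⋊[permAct (sg A Y)] FreeGroup Y)⁻¹ =
        SemidirectProduct.inr p.1⁻¹ := (map_inv _ _).symm
    rw [h2, h5, ← SemidirectProduct.inl_aut, permAct_of]
    simp [sg]
  have h3 : ((sdq A Y).comp (sdp A Y)).comp SemidirectProduct.inr = SemidirectProduct.inr := by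
    ext1 y
    simp only [MonoidHom.comp_apply, sdp, SemidirectProduct.lift_inr]
    exact sdq_jn A Y _
  have h4 : (sdq A Y).comp (sdp A Y) = MonoidHom.id _ := by
    apply SemidirectProduct.hom_ext
    · rw [h1]; rfl
    · rw [h3]; rfl
  exact DFunLike.congr_fun h4 x

theorem sdp_sdq (A Y : Type) (x : FreeGroup (A ⊕ Y)) : sdp A Y (sdq A Y x) = x := by
  have h4 : (sdp A Y).comp (sdq A Y) = MonoidHom.id _ := by
    ext1 z
    rcases z with a | y
    · simp [sdp, sdq, cj]
    · simp [sdp, sdq, jn]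
  exact DFunLike.congr_fun h4 x

theorem prj_jn (A Y : Type) (v : FreeGroup Y) : prj A Y (jn A Y v) = v := by
  have : (prj A Y).comp (jn A Y) = MonoidHom.id _ := by
    ext y
    simp [prj, jn]
  exact DFunLike.congr_fun this v

theorem prj_sdp (A Y : Type) (x : FreeGroup (FreeGroup Y × A) ⋊[permAct (sg A Y)] FreeGroup Y) :
    prj A Y (sdp A Y x) = x.right := by
  have h4 : (prj A Y).comp (sdp A Y) = SemidirectProduct.rightHom := by
    apply SemidirectProduct.hom_ext
    · ext1 p
      simp [sdp, cj, prj]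
    · ext1 y
      simp only [MonoidHom.comp_apply, sdp, SemidirectProduct.lift_inr, SemidirectProduct.rightHom_inr]
      exact prj_jn A Y _
  exact DFunLike.congr_fun h4 x

/-- the kernel of `F(A ⊔ Y) → F(Y)` -/
theorem fb_ker (A Y : Type) : FB (cj A Y) (prj A Y).ker := by
  have h1 : FreeGroup.lift (cj A Y) = (sdp A Y).comp SemidirectProduct.inl := by
    ext1 p
    simp [sdp]
  have hinj : Function.Injective (sdp A Y) := Function.LeftInverse.injective (sdq_sdp A Y)
  refine ⟨?_, ?_⟩
  · rw [h1]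
    exact hinj.comp SemidirectProduct.inl_injective
  · ext x
    constructor
    · rintro ⟨y, rfl⟩
      rw [h1, MonoidHom.mem_ker, MonoidHom.comp_apply, prj_sdp]
      rfl
    · intro hx
      rw [MonoidHom.mem_ker, ← sdp_sdq A Y x, prj_sdp] at hx
      refine ⟨(sdq A Y x).left, ?_⟩
      rw [h1, MonoidHom.comp_apply]
      have : SemidirectProduct.inl (sdq A Y x).left = sdq A Y x := by
        conv_rhs => rw [← SemidirectProduct.inl_left_mul_inr_right (sdq A Y x), hx, map_one, mul_one]
      rw [this, sdp_sdq]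

section Step

variable {K B B' : Type} [Group K] (S : Set K) (hS : IsBasis S ⊤) (σ : K →* Equiv.Perm B)
  (hfree : ∀ (k : K) (b : B), σ k b = b → k = 1) (κ : B → B') (hκ : Function.Surjective κ)
  (hinv : ∀ (k : K) (b : B), κ (σ k b) = κ b)

/-- the homomorphism `F(B) ⋊ K → F(B')` -/
def toB (σ : K →* Equiv.Perm B) (κ : B → B') (hinv : ∀ (k : K) (b : B), κ (σ k b) = κ b) :
    FreeGroup B ⋊[permAct σ] K →* FreeGroup B' :=
  SemidirectProduct.lift (FreeGroup.map κ) 1 (by
    intro k
    ext b
    simp [permAct_of, hinv])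

include hS hfree hκ in
/-- the basis step -/
theorem step : ∃ T : Set (FreeGroup B ⋊[permAct σ] K), IsBasis T (toB σ κ hinv).ker ∧
    SemidirectProduct.inr '' S ⊆ T := by
  classical
  -- orbits
  let st : Setoid B := ⟨fun b c => ∃ k, σ k b = c, ⟨fun b => ⟨1, by simp⟩,
    fun {b c} ⟨k, hk⟩ => ⟨k⁻¹, by rw [← hk]; simp⟩,
    fun {b c e} ⟨k, hk⟩ ⟨l, hl⟩ => ⟨l * k, by rw [map_mul, Equiv.Perm.mul_apply, hk, hl]⟩⟩⟩
  let Ω := Quotient st
  let cls : B → Ω := Quotient.mk st
  have hcls : ∀ k b, cls (σ k b) = cls b := fun k b => Quotient.sound ⟨k⁻¹, by simp⟩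
  let κ' : Ω → B' := Quotient.lift κ (by
    rintro b c ⟨k, hk⟩
    rw [← hk, hinv])
  have hκ' : Function.Surjective κ' := by
    intro b'
    obtain ⟨b, hb⟩ := hκ b'
    exact ⟨cls b, hb⟩
  let sec : B' → Ω := Function.surjInv hκ'
  have hsec : ∀ b', κ' (sec b') = b' := Function.surjInv_eq hκ'
  let out : Ω → B := Quotient.out
  have hout : ∀ ω, cls (out ω) = ω := fun ω => Quotient.out_eq ω
  have hκout : ∀ ω, κ (out ω) = κ' ω := by
    intro ω
    conv_rhs => rw [← hout ω]
    rfl
  -- the element which moves the representative to `b`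
  have hex : ∀ b, ∃ k, σ k (out (cls b)) = b := by
    intro b
    have h1 : cls (out (cls b)) = cls b := hout _
    exact Quotient.exact h1
  let kk : B → K := fun b => (hex b).choose
  have hkk : ∀ b, σ (kk b) (out (cls b)) = b := fun b => (hex b).choose_spec
  have huniq : ∀ k l b, σ k b = σ l b → k = l := by
    intro k l b h
    have h1 : σ (l⁻¹ * k) b = b := by
      rw [map_mul, Equiv.Perm.mul_apply, h, ← Equiv.Perm.mul_apply, ← map_mul, inv_mul_cancel, map_one]
      rfl
    have h2 := hfree _ _ h1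
    rw [inv_mul_eq_one] at h2
    exact h2.symm
  have hkσ : ∀ k b, kk (σ k b) = k * kk b := by
    intro k b
    apply huniq _ _ (out (cls b))
    rw [map_mul, Equiv.Perm.mul_apply, hkk]
    conv_lhs => rw [← hcls k b]
    rw [hkk]
  have hkout : ∀ ω, kk (out ω) = 1 := by
    intro ω
    apply huniq _ _ (out (cls (out ω)))
    rw [hkk, map_one, hout]
    rfl
  let Z := S ⊕ {ω : Ω // ω ≠ sec (κ' ω)}
  let e : FreeGroup S ≃* K := (MonoidHom.ofInjective hS.1).trans
    ((MulEquiv.subgroupCongr hS.2).trans Subgroup.topEquiv)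
  have he : ∀ s : S, e (FreeGroup.of s) = (s : K) := by
    intro s
    change FreeGroup.lift (fun t : S => (t : K)) (FreeGroup.of s) = s
    rw [FreeGroup.lift_apply_of]
  have he' : ∀ s : S, e.symm (s : K) = FreeGroup.of s := by
    intro s
    rw [← he s, MulEquiv.symm_apply_apply]
  -- the two homomorphisms
  let fwd : FreeGroup (Z ⊕ B') →* FreeGroup B ⋊[permAct σ] K :=
    FreeGroup.lift (Sum.elim (Sum.elim (fun s : S => SemidirectProduct.inr (s : K))
      (fun ω : {ω : Ω // ω ≠ sec (κ' ω)} => SemidirectProduct.inl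
        (FreeGroup.of (out ω.1) * (FreeGroup.of (out (sec (κ' ω.1))))⁻¹)))
      (fun b' => SemidirectProduct.inl (FreeGroup.of (out (sec b')))))
  let w : Ω → FreeGroup (Z ⊕ B') := fun ω =>
    if h : ω = sec (κ' ω) then FreeGroup.of (Sum.inr (κ' ω))
    else FreeGroup.of (Sum.inl (Sum.inr ⟨ω, h⟩)) * FreeGroup.of (Sum.inr (κ' ω))
  let jK : K →* FreeGroup (Z ⊕ B') := (FreeGroup.map (fun s : S => (Sum.inl (Sum.inl s) : Z ⊕ B'))).comp
    e.symm.toMonoidHom
  have hjK : ∀ s : S, jK (s : K) = FreeGroup.of (Sum.inl (Sum.inl s)) := by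
    intro s
    simp only [jK, MonoidHom.comp_apply, MulEquiv.coe_toMonoidHom, he', FreeGroup.map.of]
  let bwd : FreeGroup B ⋊[permAct σ] K →* FreeGroup (Z ⊕ B') :=
    SemidirectProduct.lift (FreeGroup.lift fun b => jK (kk b) * w (cls b) * (jK (kk b))⁻¹) jK (by
      intro k
      ext1 b
      simp only [MonoidHom.comp_apply, MulEquiv.coe_toMonoidHom, permAct_of, FreeGroup.lift_apply_of, hkσ, hcls,
        MulAut.conj_apply, map_mul, mul_inv_rev]
      simp only [mul_assoc, inv_mul_cancel_left])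
  have hfw : ∀ ω, fwd (w ω) = SemidirectProduct.inl (FreeGroup.of (out ω)) := by
    intro ω
    by_cases h : ω = sec (κ' ω)
    · have h1 : w ω = FreeGroup.of (Sum.inr (κ' ω)) := dif_pos h
      rw [h1]
      simp only [fwd, FreeGroup.lift_apply_of, Sum.elim_inr]
      rw [← h]
    · have h1 : w ω = FreeGroup.of (Sum.inl (Sum.inr ⟨ω, h⟩)) * FreeGroup.of (Sum.inr (κ' ω)) := dif_neg h
      rw [h1]
      simp only [fwd, map_mul, FreeGroup.lift_apply_of, Sum.elim_inr, Sum.elim_inl, map_inv]
      rw [inv_mul_cancel_right]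
  have hfj : ∀ k : K, fwd (jK k) = SemidirectProduct.inr k := by
    intro k
    obtain ⟨x, rfl⟩ := e.surjective k
    have : (fwd.comp jK).comp e.toMonoidHom = SemidirectProduct.inr.comp e.toMonoidHom := by
      ext1 s
      simp only [MonoidHom.comp_apply, MulEquiv.coe_toMonoidHom]
      rw [he, hjK]
      simp [fwd]
    exact DFunLike.congr_fun this x
  have h1 : ∀ x, fwd (bwd x) = x := by
    have : fwd.comp bwd = MonoidHom.id _ := by
      apply SemidirectProduct.hom_ext
      · ext1 b
        simp only [MonoidHom.comp_apply, bwd, SemidirectProduct.lift_inl, FreeGroup.lift_apply_of, map_mul, map_inv,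
          hfj, hfw, MonoidHom.id_apply]
        have h5 : (SemidirectProduct.inr (kk b) : FreeGroup B ⋊[permAct σ] K)⁻¹ =
            SemidirectProduct.inr (kk b)⁻¹ := (map_inv _ _).symm
        rw [h5, ← SemidirectProduct.inl_aut, permAct_of, hkk]
      · ext1 k
        simp only [MonoidHom.comp_apply, bwd, SemidirectProduct.lift_inr, hfj, MonoidHom.id_apply]
    exact fun x => DFunLike.congr_fun this x
  have h2 : ∀ x, bwd (fwd x) = x := by
    have hb : ∀ ω, bwd (SemidirectProduct.inl (FreeGroup.of (out ω))) = w ω := by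
      intro ω
      simp only [bwd, SemidirectProduct.lift_inl, FreeGroup.lift_apply_of]
      rw [hkout, hout]
      simp
    have : bwd.comp fwd = MonoidHom.id _ := by
      ext1 z
      rcases z with (s | ω) | b'
      · simp only [MonoidHom.comp_apply, fwd, FreeGroup.lift_apply_of, Sum.elim_inl, MonoidHom.id_apply]
        simp only [bwd, SemidirectProduct.lift_inr]
        exact hjK s
      · simp only [MonoidHom.comp_apply, fwd, FreeGroup.lift_apply_of, Sum.elim_inl, Sum.elim_inr,
          MonoidHom.id_apply, map_mul, map_inv, hb]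
        have e1 : w ω.1 = FreeGroup.of (Sum.inl (Sum.inr ω)) * FreeGroup.of (Sum.inr (κ' ω.1)) := dif_neg ω.2
        have e2 : w (sec (κ' ω.1)) = FreeGroup.of (Sum.inr (κ' ω.1)) := by
          have e3 : sec (κ' ω.1) = sec (κ' (sec (κ' ω.1))) := by rw [hsec]
          have e4 : w (sec (κ' ω.1)) = FreeGroup.of (Sum.inr (κ' (sec (κ' ω.1)))) := dif_pos e3
          rw [e4, hsec]
        rw [e1, e2, mul_inv_cancel_right]
      · simp only [MonoidHom.comp_apply, fwd, FreeGroup.lift_apply_of, Sum.elim_inr, MonoidHom.id_apply, hb]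
        have e3 : sec b' = sec (κ' (sec b')) := by rw [hsec]
        have e4 : w (sec b') = FreeGroup.of (Sum.inr (κ' (sec b'))) := dif_pos e3
        rw [e4, hsec]
    exact fun x => DFunLike.congr_fun this x
  have hfinj : Function.Injective fwd := Function.LeftInverse.injective h2
  have hP : (toB σ κ hinv).comp fwd = prj Z B' := by
    ext1 z
    rcases z with (s | ω) | b'
    · simp [fwd, toB, prj]
    · simp only [MonoidHom.comp_apply, fwd, toB, prj, FreeGroup.lift_apply_of, Sum.elim_inl, Sum.elim_inr,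
        SemidirectProduct.lift_inl, map_mul, map_inv, FreeGroup.map.of, hκout, hsec, mul_inv_cancel]
    · simp only [MonoidHom.comp_apply, fwd, toB, prj, FreeGroup.lift_apply_of, Sum.elim_inr,
        SemidirectProduct.lift_inl, FreeGroup.map.of, hκout, hsec]
  have hb := (fb_ker Z B').map fwd hfinj
  have hk : (prj Z B').ker.map fwd = (toB σ κ hinv).ker := by
    ext x
    constructor
    · rintro ⟨y, hy, rfl⟩
      rw [MonoidHom.mem_ker, ← MonoidHom.comp_apply, hP]
      exact hy
    · intro hx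
      refine ⟨bwd x, ?_, h1 x⟩
      change prj Z B' (bwd x) = 1
      rw [← hP, MonoidHom.comp_apply, h1]
      exact hx
  rw [hk] at hb
  refine ⟨_, hb.set, ?_⟩
  rintro _ ⟨s, hs, rfl⟩
  refine ⟨(1, Sum.inl ⟨s, hs⟩), ?_⟩
  simp [cj, fwd]

end Step

end Pool.Agent.H10.TL
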