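import Pool.Agent.H10.TL.Cb
import Pool.Agent.H10.TL.Stp

/-!
# The tower: definitions

`M = ⟨x_h, h ∈ I | [x_(g j), d_j x_(lab j) d_j⁻¹], j ∈ J⟩`, where the second element is a word in generators of smaller level.
-/

set_option autoImplicit false

namespace Pool.Agent.H10.TL

open Pool.Agent.H98.FJ

/-- the data of a tower -/
structure TD (I J : Type) where
  /-- the level -/
  ℓ : I → ℕ
  /-- the parity -/
  par : I → Bool
  /-- the upper generator of the relation -/
  g : J → I
  /-- the label of the relation -/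
  lab : J → I
  /-- the conjugating word -/
  d : J → FreeGroup I
  hlev : ∀ h h', ℓ h = ℓ h' → par h = par h'
  hpar : ∀ j, par (lab j) ≠ par (g j)
  hlow : ∀ j, d j * FreeGroup.of (lab j) * (d j)⁻¹ ∈ Subgroup.closure {x | ∃ h, ℓ h < ℓ (g j) ∧ x = FreeGroup.of h}
  hinj : ∀ j j', g j = g j' → lab j = lab j' → j = j'

namespace TD

variable {I J : Type} (D : TD I J)

/-- the lower element of the relation -/
def c (j : J) : FreeGroup I := D.d j * FreeGroup.of (D.lab j) * (D.d j)⁻¹

/-- the relations -/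
def rels : Set (FreeGroup I) := Set.range fun j =>
  FreeGroup.of (D.g j) * (D.d j * FreeGroup.of (D.lab j) * (D.d j)⁻¹) * (FreeGroup.of (D.g j))⁻¹ *
    (D.d j * FreeGroup.of (D.lab j) * (D.d j)⁻¹)⁻¹

/-- the group -/
abbrev M : Type := PresentedGroup D.rels

/-- the canonical homomorphism from the free group -/
def q : FreeGroup I →* D.M := PresentedGroup.mk D.rels

/-- the generators -/
def x (h : I) : D.M := D.q (FreeGroup.of h)

theorem q_eq : D.q = FreeGroup.lift D.x := by
  ext1 h
  rw [FreeGroup.lift_apply_of]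
  rfl

theorem q_surj : Function.Surjective D.q := PresentedGroup.mk_surjective D.rels

theorem comm (j : J) : Commute (D.x (D.g j)) (D.q (D.c j)) := by
  have h : D.q (FreeGroup.of (D.g j) * D.c j * (FreeGroup.of (D.g j))⁻¹ * (D.c j)⁻¹) = 1 :=
    PresentedGroup.one_of_mem ⟨j, rfl⟩
  rw [map_mul, map_mul, map_mul, map_inv, map_inv, mul_inv_eq_one, mul_inv_eq_iff_eq_mul] at h
  exact h

theorem hom_ext {G : Type} [Group G] {F F' : D.M →* G} (h : ∀ i, F (D.x i) = F' (D.x i)) : F = F' :=
  PresentedGroup.ext h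

/-- homomorphisms from the group -/
def lft {G : Type} [Group G] (f : I → G) (hf : ∀ j, Commute (f (D.g j)) (FreeGroup.lift f (D.c j))) : D.M →* G :=
  PresentedGroup.toGroup (f := f) (by
    rintro _ ⟨j, rfl⟩
    rw [map_mul, map_mul _ _ (FreeGroup.of (D.g j))⁻¹, map_mul _ (FreeGroup.of (D.g j)), map_inv, map_inv,
      FreeGroup.lift_apply_of, mul_inv_eq_one, mul_inv_eq_iff_eq_mul]
    exact hf j)

theorem lft_x {G : Type} [Group G] (f : I → G) (hf : ∀ j, Commute (f (D.g j)) (FreeGroup.lift f (D.c j))) (h : I) :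
    D.lft f hf (D.x h) = f h := PresentedGroup.toGroup.of _

theorem lft_q {G : Type} [Group G] (f : I → G) (hf : ∀ j, Commute (f (D.g j)) (FreeGroup.lift f (D.c j)))
    (y : FreeGroup I) : D.lft f hf (D.q y) = FreeGroup.lift f y := by
  have : (D.lft f hf).comp D.q = FreeGroup.lift f := by
    ext1 h
    rw [FreeGroup.lift_apply_of, MonoidHom.comp_apply]
    exact D.lft_x f hf h
  exact DFunLike.congr_fun this y

/-- homomorphisms from the free group which agree on some generators -/
theorem lift_congr {G : Type} [Group G] (f f' : FreeGroup I →* G) (s : ℕ)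
    (h : ∀ i, D.ℓ i < s → f (FreeGroup.of i) = f' (FreeGroup.of i)) {y : FreeGroup I}
    (hy : y ∈ Subgroup.closure {x | ∃ h, D.ℓ h < s ∧ x = FreeGroup.of h}) : f y = f' y := by
  induction hy using Subgroup.closure_induction with
  | mem y hy =>
    obtain ⟨i, hi, rfl⟩ := hy
    exact h i hi
  | one => rw [map_one, map_one]
  | mul a b _ _ ha hb => rw [map_mul, map_mul, ha, hb]
  | inv a _ ha => rw [map_inv, map_inv, ha]

/-- the projections which kill the generators of one parity -/
def pi (e : Bool) : D.M →* FreeGroup I :=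
  D.lft (fun h => if D.par h = e then FreeGroup.of h else 1) (by
    intro j
    by_cases h : D.par (D.g j) = e
    · have h1 : ¬ D.par (D.lab j) = e := by
        intro h2
        exact D.hpar j (h2.trans h.symm)
      have h3 : FreeGroup.lift (fun h => if D.par h = e then FreeGroup.of h else 1) (D.c j) = 1 := by
        rw [c, map_mul, map_mul, FreeGroup.lift_apply_of, if_neg h1, mul_one, map_inv, mul_inv_cancel]
      rw [h3]
      exact Commute.one_right _
    · rw [if_neg h]
      exact Commute.one_left _)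

theorem pi_x (e : Bool) (h : I) : D.pi e (D.x h) = if D.par h = e then FreeGroup.of h else 1 := D.lft_x _ _ h

/-- the kernel -/
def R : Subgroup D.M := (D.pi true).ker ⊓ (D.pi false).ker

theorem mem_R {y : D.M} : y ∈ D.R ↔ ∀ e, D.pi e y = 1 := by
  constructor
  · rintro ⟨h1, h2⟩ e
    cases e
    · exact h2
    · exact h1
  · intro h
    exact ⟨h true, h false⟩

/-- the lower levels -/
def Ms (s : ℕ) : Subgroup D.M := Subgroup.closure {y | ∃ h, D.ℓ h < s ∧ y = D.x h}

theorem x_mem {s : ℕ} {h : I} (hh : D.ℓ h < s) : D.x h ∈ D.Ms s := Subgroup.subset_closure ⟨h, hh, rfl⟩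

theorem Ms_mono {s t : ℕ} (h : s ≤ t) : D.Ms s ≤ D.Ms t := by
  apply Subgroup.closure_mono
  rintro y ⟨i, hi, rfl⟩
  exact ⟨i, lt_of_lt_of_le hi h, rfl⟩

theorem q_mem {s : ℕ} {y : FreeGroup I} (hy : y ∈ Subgroup.closure {x | ∃ h, D.ℓ h < s ∧ x = FreeGroup.of h}) :
    D.q y ∈ D.Ms s := by
  induction hy using Subgroup.closure_induction with
  | mem y hy =>
    obtain ⟨i, hi, rfl⟩ := hy
    exact D.x_mem hi
  | one => rw [map_one]; exact Subgroup.one_mem _
  | mul a b _ _ ha hb => rw [map_mul]; exact Subgroup.mul_mem _ ha hb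
  | inv a _ ha => rw [map_inv]; exact Subgroup.inv_mem _ ha

theorem c_low (j : J) : D.c j ∈ Subgroup.closure {x | ∃ h, D.ℓ h < D.ℓ (D.g j) ∧ x = FreeGroup.of h} := D.hlow j

theorem c_low' (j : J) {s : ℕ} (h : D.ℓ (D.g j) ≤ s) :
    D.c j ∈ Subgroup.closure {x | ∃ h, D.ℓ h < s ∧ x = FreeGroup.of h} := by
  refine Subgroup.closure_mono ?_ (D.c_low j)
  rintro y ⟨i, hi, rfl⟩
  exact ⟨i, lt_of_lt_of_le hi h, rfl⟩

theorem exists_Ms (y : D.M) : ∃ s, y ∈ D.Ms s := by
  obtain ⟨z, rfl⟩ := D.q_surj y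
  suffices h : ∃ s, ∀ t, s ≤ t → D.q z ∈ D.Ms t by
    obtain ⟨s, hs⟩ := h
    exact ⟨s, hs s le_rfl⟩
  induction z using FreeGroup.induction_on with
  | C1 => exact ⟨0, fun t _ => by rw [map_one]; exact Subgroup.one_mem _⟩
  | of x => exact ⟨D.ℓ x + 1, fun t ht => D.x_mem (by omega)⟩
  | inv_of x hx =>
    obtain ⟨s, hs⟩ := hx
    exact ⟨s, fun t ht => by rw [map_inv]; exact Subgroup.inv_mem _ (hs t ht)⟩
  | mul a b ha hb =>
    obtain ⟨s, hs⟩ := ha
    obtain ⟨s', hs'⟩ := hb
    exact ⟨max s s', fun t ht => by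
      rw [map_mul]
      exact Subgroup.mul_mem _ (hs t (le_trans (le_max_left _ _) ht)) (hs' t (le_trans (le_max_right _ _) ht))⟩

/-- the retraction to the lower levels -/
noncomputable def rr (s : ℕ) : D.M →* D.Ms s :=
  D.lft (fun h => if hh : D.ℓ h < s then ⟨D.x h, D.x_mem hh⟩ else 1) (by
    intro j
    by_cases h : D.ℓ (D.g j) < s
    · have h1 : (D.Ms s).subtype.comp (FreeGroup.lift (fun h => if hh : D.ℓ h < s then
          (⟨D.x h, D.x_mem hh⟩ : D.Ms s) else 1)) (D.c j) = D.q (D.c j) := by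
        apply D.lift_congr _ _ s _ (D.c_low' j h.le)
        intro i hi
        rw [MonoidHom.comp_apply, FreeGroup.lift_apply_of, dif_pos hi]
        rfl
      have h2 := D.comm j
      rw [← h1] at h2
      rw [dif_pos h]
      exact Subtype.ext h2
    · rw [dif_neg h]
      exact Commute.one_left _)

theorem rr_x {s : ℕ} {h : I} (hh : D.ℓ h < s) : D.rr s (D.x h) = ⟨D.x h, D.x_mem hh⟩ := by
  rw [rr, lft_x, dif_pos hh]

theorem rr_x' {s : ℕ} {h : I} (hh : ¬ D.ℓ h < s) : D.rr s (D.x h) = 1 := by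
  rw [rr, lft_x, dif_neg hh]

theorem rr_mem {s : ℕ} {y : D.M} (hy : y ∈ D.Ms s) : (D.rr s y : D.M) = y := by
  induction hy using Subgroup.closure_induction with
  | mem y hy =>
    obtain ⟨i, hi, rfl⟩ := hy
    rw [D.rr_x hi]
  | one => rw [map_one]; rfl
  | mul a b _ _ ha hb => rw [map_mul, Subgroup.coe_mul, ha, hb]
  | inv a _ ha => rw [map_inv, Subgroup.coe_inv, ha]

/-- the truncation -/
def tr (s : ℕ) : FreeGroup I →* FreeGroup I := FreeGroup.lift fun h => if D.ℓ h < s then FreeGroup.of h else 1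

theorem pi_rr (s : ℕ) (e : Bool) (y : D.M) : D.pi e (D.rr s y : D.M) = D.tr s (D.pi e y) := by
  have : ((D.pi e).comp (D.Ms s).subtype).comp (D.rr s) = (D.tr s).comp (D.pi e) := by
    apply D.hom_ext
    intro i
    simp only [MonoidHom.comp_apply, pi_x]
    by_cases h1 : D.ℓ i < s
    · rw [D.rr_x h1]
      change D.pi e (D.x i) = _
      rw [pi_x]
      by_cases h2 : D.par i = e
      · rw [if_pos h2, tr, FreeGroup.lift_apply_of, if_pos h1]
      · rw [if_neg h2, map_one]
    · rw [D.rr_x' h1, map_one, map_one]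
      by_cases h2 : D.par i = e
      · rw [if_pos h2, tr, FreeGroup.lift_apply_of, if_neg h1]
      · rw [if_neg h2, map_one]
  exact DFunLike.congr_fun this y

/-- the elements of the lower levels which commute with a generator -/
def C (h : I) : Subgroup D.M := Subgroup.closure {y | ∃ j, D.g j = h ∧ y = D.q (D.c j)}

theorem C_comm {h : I} {y : D.M} (hy : y ∈ D.C h) : Commute (D.x h) y := by
  induction hy using Subgroup.closure_induction with
  | mem y hy =>
    obtain ⟨j, rfl, rfl⟩ := hy
    exact D.comm j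
  | one => exact Commute.one_right _
  | mul a b _ _ ha hb => exact ha.mul_right hb
  | inv a _ ha => exact ha.inv_right

/-- the projection is injective on `C h` -/
theorem C_inj {h : I} {y : D.M} (hy : y ∈ D.C h) (h1 : D.pi (!(D.par h)) y = 1) : y = 1 := by
  let v : {j // D.g j = h} → D.M := fun j => D.q (D.c j)
  have h2 : D.C h ≤ (FreeGroup.lift v).range := by
    rw [C, Subgroup.closure_le]
    rintro y ⟨j, hj, rfl⟩
    exact ⟨FreeGroup.of ⟨j, hj⟩, by rw [FreeGroup.lift_apply_of]⟩
  obtain ⟨w, rfl⟩ := h2 hy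
  have h3 : (D.pi (!(D.par h))).comp (FreeGroup.lift v) =
      FreeGroup.lift (fun j : {j // D.g j = h} => D.pi (!(D.par h)) (D.q (D.d j)) * FreeGroup.of (D.lab j) *
        (D.pi (!(D.par h)) (D.q (D.d j)))⁻¹) := by
    ext1 j
    rw [MonoidHom.comp_apply, FreeGroup.lift_apply_of, FreeGroup.lift_apply_of]
    change D.pi _ (D.q (D.c j)) = _
    rw [c, map_mul, map_mul, map_mul, map_mul, map_inv, map_inv]
    have h4 : D.par (D.lab j) = !(D.par h) := by
      have := D.hpar j
      rw [j.2] at this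
      revert this
      cases D.par (D.lab j) <;> cases D.par h <;> simp
    have h5 : D.pi (!(D.par h)) (D.q (FreeGroup.of (D.lab j))) = FreeGroup.of (D.lab j) := by
      change D.pi _ (D.x _) = _
      rw [pi_x, if_pos h4]
    rw [h5]
  have h4 := conj_basis (fun j : {j // D.g j = h} => D.pi (!(D.par h)) (D.q (D.d j)))
    (fun j : {j // D.g j = h} => D.lab j) (by
      intro j j' hjj
      exact Subtype.ext (D.hinj _ _ (j.2.trans j'.2.symm) hjj))
  rw [← h3] at h4
  have h5 : w = 1 := by
    apply h4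
    rw [map_one]
    exact h1
  rw [h5, map_one]

end TD

end Pool.Agent.H10.TL
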