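import Pool.Agent.H10.TL.Dat

/-!
# One level of the tower
-/

set_option autoImplicit false

namespace Pool.Agent.H10.TL

open Pool.Agent.H98.FJ

namespace TD

variable {I J : Type} (D : TD I J)

theorem C_le {h : I} {s : ℕ} (hs : D.ℓ h ≤ s) : D.C h ≤ D.Ms s := by
  rw [C, Subgroup.closure_le]
  rintro y ⟨j, rfl, rfl⟩
  exact D.q_mem (D.c_low' j hs)

/-- the cosets -/
abbrev B (s : ℕ) : Type := Σ h : {h : I // D.ℓ h = s}, D.Ms s ⧸ (D.C h.1).subgroupOf (D.Ms s)

/-- the coset of `m` -/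
def bb (s : ℕ) (h : {h : I // D.ℓ h = s}) (m : D.Ms s) : D.B s := ⟨h, (m : D.Ms s ⧸ (D.C h.1).subgroupOf (D.Ms s))⟩

theorem bb_surj {s : ℕ} (b : D.B s) : ∃ h m, b = D.bb s h m := by
  obtain ⟨h, y⟩ := b
  obtain ⟨m, rfl⟩ := QuotientGroup.mk_surjective y
  exact ⟨h, m, rfl⟩

theorem bb_eq {s : ℕ} {h : {h : I // D.ℓ h = s}} {m m' : D.Ms s} :
    D.bb s h m = D.bb s h m' ↔ ((m : D.M)⁻¹ * m' ∈ D.C h.1) := by
  constructor
  · intro he
    have h1 : (m : D.Ms s ⧸ (D.C h.1).subgroupOf (D.Ms s)) = m' := by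
      simp only [bb, Sigma.mk.injEq, heq_eq_eq, true_and] at he
      exact he
    rw [QuotientGroup.eq] at h1
    exact h1
  · intro he
    have h1 : (m : D.Ms s ⧸ (D.C h.1).subgroupOf (D.Ms s)) = m' := QuotientGroup.eq.2 he
    simp only [bb, h1]

/-- the action -/
def sig (s : ℕ) : D.Ms s →* Equiv.Perm (D.B s) where
  toFun m :=
    { toFun := fun p => ⟨p.1, m • p.2⟩
      invFun := fun p => ⟨p.1, m⁻¹ • p.2⟩
      left_inv := fun p => by simp
      right_inv := fun p => by simp }
  map_one' := by ext p : 1; simp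
  map_mul' a b := by ext p : 1; simp [mul_smul]

theorem sig_bb (s : ℕ) (k m : D.Ms s) (h : {h : I // D.ℓ h = s}) : D.sig s k (D.bb s h m) = D.bb s h (k * m) := rfl

/-- the semidirect product -/
abbrev SD (s : ℕ) : Type := FreeGroup (D.B s) ⋊[permAct (D.sig s)] D.Ms s

/-- the images of the generators -/
noncomputable def phiF (s : ℕ) (h : I) : D.SD s :=
  if hh : D.ℓ h < s then SemidirectProduct.inr ⟨D.x h, D.x_mem hh⟩
  else if he : D.ℓ h = s then SemidirectProduct.inl (FreeGroup.of (D.bb s ⟨h, he⟩ 1)) else 1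

theorem phiF_low {s : ℕ} {y : FreeGroup I} (hy : y ∈ Subgroup.closure {x | ∃ h, D.ℓ h < s ∧ x = FreeGroup.of h}) :
    FreeGroup.lift (D.phiF s) y = SemidirectProduct.inr (D.rr s (D.q y)) := by
  have := D.lift_congr (FreeGroup.lift (D.phiF s))
    ((SemidirectProduct.inr : D.Ms s →* D.SD s).comp ((D.rr s).comp D.q)) s ?_ hy
  · exact this
  · intro i hi
    rw [FreeGroup.lift_apply_of, phiF, dif_pos hi]
    change _ = SemidirectProduct.inr (D.rr s (D.x i))
    rw [D.rr_x hi]

theorem phi_comm (s : ℕ) (j : J) : Commute (D.phiF s (D.g j)) (FreeGroup.lift (D.phiF s) (D.c j)) := by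
  rcases lt_trichotomy (D.ℓ (D.g j)) s with h | h | h
  · rw [D.phiF_low (D.c_low' j h.le), phiF, dif_pos h, ← D.rr_x h]
    exact ((D.comm j).map (D.rr s)).map _
  · rw [D.phiF_low (D.c_low' j h.le), phiF, dif_neg (by omega), dif_pos h]
    set m : D.Ms s := D.rr s (D.q (D.c j)) with hm
    have h1 : D.sig s m (D.bb s ⟨D.g j, h⟩ 1) = D.bb s ⟨D.g j, h⟩ 1 := by
      rw [sig_bb, bb_eq]
      have h2 : (m : D.M) = D.q (D.c j) := D.rr_mem (D.q_mem (D.c_low' j h.le))
      rw [mul_one, OneMemClass.coe_one, mul_one, h2]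
      exact Subgroup.inv_mem _ (Subgroup.subset_closure ⟨j, rfl, rfl⟩)
    have h3 : (SemidirectProduct.inr m : D.SD s) * SemidirectProduct.inl (FreeGroup.of (D.bb s ⟨D.g j, h⟩ 1)) *
        (SemidirectProduct.inr m)⁻¹ = SemidirectProduct.inl (FreeGroup.of (D.bb s ⟨D.g j, h⟩ 1)) := by
      have h5 : (SemidirectProduct.inr m : D.SD s)⁻¹ = SemidirectProduct.inr m⁻¹ := (map_inv _ _).symm
      rw [h5, ← SemidirectProduct.inl_aut, permAct_of, h1]
    rw [mul_inv_eq_iff_eq_mul] at h3
    exact h3.symm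
  · rw [phiF, dif_neg (by omega), dif_neg (by omega)]
    exact Commute.one_left _

/-- the homomorphism to the semidirect product -/
noncomputable def Phi (s : ℕ) : D.M →* D.SD s := D.lft (D.phiF s) (D.phi_comm s)

theorem Phi_mem {s : ℕ} (m : D.Ms s) : D.Phi s (m : D.M) = SemidirectProduct.inr m := by
  obtain ⟨m, hm⟩ := m
  induction hm using Subgroup.closure_induction with
  | mem y hy =>
    obtain ⟨i, hi, rfl⟩ := hy
    simp only [Phi, lft_x, phiF, dif_pos hi]
  | one =>
    have : (⟨1, Subgroup.one_mem _⟩ : D.Ms s) = 1 := rfl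
    rw [this, map_one]
    exact map_one _
  | mul a b ha hb h1 h2 =>
    have : (⟨a * b, Subgroup.mul_mem _ ha hb⟩ : D.Ms s) = ⟨a, ha⟩ * ⟨b, hb⟩ := rfl
    rw [this, map_mul, ← h1, ← h2]
    exact map_mul _ _ _
  | inv a ha h1 =>
    have : (⟨a⁻¹, Subgroup.inv_mem _ ha⟩ : D.Ms s) = ⟨a, ha⟩⁻¹ := rfl
    rw [this, map_inv, ← h1]
    exact map_inv _ _

/-- the conjugate of the generator -/
noncomputable def psiF (s : ℕ) (b : D.B s) : D.M :=
  Quotient.liftOn' b.2 (fun m => (m : D.M) * D.x b.1.1 * (m : D.M)⁻¹) (by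
    intro m m' h
    rw [QuotientGroup.leftRel_apply] at h
    have h1 : (m : D.M)⁻¹ * m' ∈ D.C b.1.1 := h
    have h2 := D.C_comm h1
    have h3 : (m' : D.M) = m * ((m : D.M)⁻¹ * m') := by group
    change (m : D.M) * D.x b.1.1 * (m : D.M)⁻¹ = (m' : D.M) * D.x b.1.1 * (m' : D.M)⁻¹
    rw [h3, mul_inv_rev, mul_assoc (m : D.M) ((m : D.M)⁻¹ * m') (D.x b.1.1), ← h2.eq]
    group)

theorem psiF_bb (s : ℕ) (h : {h : I // D.ℓ h = s}) (m : D.Ms s) :
    D.psiF s (D.bb s h m) = (m : D.M) * D.x h.1 * (m : D.M)⁻¹ := rfl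

/-- the homomorphism from the semidirect product -/
noncomputable def Psi (s : ℕ) : D.SD s →* D.M :=
  SemidirectProduct.lift (FreeGroup.lift (D.psiF s)) (D.Ms s).subtype (by
    intro k
    ext1 b
    obtain ⟨h, m, rfl⟩ := D.bb_surj b
    simp only [MonoidHom.comp_apply, MulEquiv.coe_toMonoidHom, permAct_of, FreeGroup.lift_apply_of, sig_bb, psiF_bb,
      MulAut.conj_apply, Subgroup.coe_mul, Subgroup.coe_subtype]
    group)

theorem Phi_Psi (s : ℕ) (z : D.SD s) : D.Phi s (D.Psi s z) = z := by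
  have h4 : (D.Phi s).comp (D.Psi s) = MonoidHom.id _ := by
    apply SemidirectProduct.hom_ext
    · ext1 b
      obtain ⟨h, m, rfl⟩ := D.bb_surj b
      simp only [MonoidHom.comp_apply, Psi, SemidirectProduct.lift_inl, FreeGroup.lift_apply_of, psiF_bb, map_mul,
        map_inv, Phi_mem, MonoidHom.id_apply]
      have h5 : (SemidirectProduct.inr m : D.SD s)⁻¹ = SemidirectProduct.inr m⁻¹ := (map_inv _ _).symm
      have h6 : D.Phi s (D.x h.1) = SemidirectProduct.inl (FreeGroup.of (D.bb s h 1)) := by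
        have h7 : ¬ D.ℓ h.1 < s := by
          have := h.2
          omega
        simp only [Phi, lft_x, phiF, dif_neg h7, dif_pos h.2]
      rw [h6, h5, ← SemidirectProduct.inl_aut, permAct_of, sig_bb, mul_one]
    · ext1 m
      simp only [MonoidHom.comp_apply, Psi, SemidirectProduct.lift_inr, Subgroup.coe_subtype, MonoidHom.id_apply]
      exact D.Phi_mem m
  exact DFunLike.congr_fun h4 z

theorem Psi_inj (s : ℕ) : Function.Injective (D.Psi s) := Function.LeftInverse.injective (D.Phi_Psi s)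

theorem Psi_eq (s : ℕ) (z : D.SD s) : D.Psi s z = FreeGroup.lift (D.psiF s) z.left * (z.right : D.M) := by
  conv_lhs => rw [← SemidirectProduct.inl_left_mul_inr_right z]
  rw [map_mul]
  simp only [Psi, SemidirectProduct.lift_inl, SemidirectProduct.lift_inr, Subgroup.coe_subtype]

theorem lift_psi_mem (s : ℕ) (f : FreeGroup (D.B s)) : FreeGroup.lift (D.psiF s) f ∈ D.Ms (s + 1) := by
  induction f using FreeGroup.induction_on with
  | C1 => rw [map_one]; exact Subgroup.one_mem _
  | of b =>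
    obtain ⟨h, m, rfl⟩ := D.bb_surj b
    rw [FreeGroup.lift_apply_of, psiF_bb]
    have h1 := D.Ms_mono (Nat.le_succ s) m.2
    have h2 : D.x h.1 ∈ D.Ms (s + 1) := D.x_mem (by
      have := h.2
      omega)
    exact Subgroup.mul_mem _ (Subgroup.mul_mem _ h1 h2) (Subgroup.inv_mem _ h1)
  | inv_of b hb => rw [map_inv]; exact Subgroup.inv_mem _ hb
  | mul a b ha hb => rw [map_mul]; exact Subgroup.mul_mem _ ha hb

theorem Psi_surj (s : ℕ) {y : D.M} (hy : y ∈ D.Ms (s + 1)) : ∃ z, D.Psi s z = y := by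
  have : D.Ms (s + 1) ≤ (D.Psi s).range := by
    rw [Ms, Subgroup.closure_le]
    rintro y ⟨h, hh, rfl⟩
    rcases Nat.lt_succ_iff_lt_or_eq.1 hh with h1 | h1
    · refine ⟨SemidirectProduct.inr ⟨D.x h, D.x_mem h1⟩, ?_⟩
      simp only [Psi, SemidirectProduct.lift_inr, Subgroup.coe_subtype]
    · refine ⟨SemidirectProduct.inl (FreeGroup.of (D.bb s ⟨h, h1⟩ 1)), ?_⟩
      simp only [Psi, SemidirectProduct.lift_inl, FreeGroup.lift_apply_of, psiF_bb]
      simp
  exact this hy

theorem rr_Psi (s : ℕ) (z : D.SD s) : D.rr s (D.Psi s z) = z.right := by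
  have h4 : (D.rr s).comp (D.Psi s) = SemidirectProduct.rightHom := by
    apply SemidirectProduct.hom_ext
    · ext1 b
      obtain ⟨h, m, rfl⟩ := D.bb_surj b
      simp only [MonoidHom.comp_apply, Psi, SemidirectProduct.lift_inl, FreeGroup.lift_apply_of, psiF_bb, map_mul,
        map_inv, SemidirectProduct.rightHom_inl]
      have h7 : ¬ D.ℓ h.1 < s := by
        have := h.2
        omega
      rw [D.rr_x' h7, mul_one, mul_inv_cancel]
    · ext1 m
      simp only [MonoidHom.comp_apply, Psi, SemidirectProduct.lift_inr, Subgroup.coe_subtype,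
        SemidirectProduct.rightHom_inr]
      exact Subtype.ext (D.rr_mem m.2)
  exact DFunLike.congr_fun h4 z

/-- the conjugates by words of lower level of the generators of level `s` are free -/
theorem chi_inj (s : ℕ) (V : Subgroup (FreeGroup I))
    (hV : V ≤ Subgroup.closure {x | ∃ h, D.ℓ h < s ∧ x = FreeGroup.of h}) :
    Function.Injective (FreeGroup.lift (fun p : {h : I // D.ℓ h = s} × V =>
      (p.2 : FreeGroup I) * FreeGroup.of p.1.1 * (p.2 : FreeGroup I)⁻¹)) := by
  let Y := {h : I // D.ℓ h < s}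
  let A := {h : I // D.ℓ h = s}
  let emb : A ⊕ Y → I := Sum.elim Subtype.val Subtype.val
  have hemb : Function.Injective emb := by
    rintro (a | a) (b | b) hab
    · exact congrArg _ (Subtype.ext hab)
    · have h1 := a.2
      have h2 := b.2
      have h3 : a.1 = b.1 := hab
      rw [h3] at h1
      omega
    · have h1 := a.2
      have h2 := b.2
      have h3 : a.1 = b.1 := hab
      rw [h3] at h1
      omega
    · exact congrArg _ (Subtype.ext hab)
  have hex : ∀ v : V, ∃ w : FreeGroup Y, FreeGroup.map Subtype.val w = (v : FreeGroup I) := by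
    intro v
    have : Subgroup.closure {x | ∃ h, D.ℓ h < s ∧ x = FreeGroup.of h} ≤
        (FreeGroup.map (Subtype.val : Y → I)).range := by
      rw [Subgroup.closure_le]
      rintro _ ⟨h, hh, rfl⟩
      exact ⟨FreeGroup.of ⟨h, hh⟩, by rw [FreeGroup.map.of]⟩
    exact this (hV v.2)
  choose w hw using hex
  have hwinj : Function.Injective (fun p : A × V => (w p.2, p.1)) := by
    intro p p' h
    simp only [Prod.mk.injEq] at h
    apply Prod.ext h.2
    apply Subtype.ext
    rw [← hw, ← hw, h.1]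
  have h1 : FreeGroup.lift (fun p : A × V => (p.2 : FreeGroup I) * FreeGroup.of p.1.1 * (p.2 : FreeGroup I)⁻¹) =
      (FreeGroup.map emb).comp ((FreeGroup.lift (cj A Y)).comp (FreeGroup.map (fun p : A × V => (w p.2, p.1)))) := by
    ext1 p
    simp only [MonoidHom.comp_apply, FreeGroup.lift_apply_of, FreeGroup.map.of, cj, map_mul, map_inv]
    have h2 : FreeGroup.map emb (jn A Y (w p.2)) = (p.2 : FreeGroup I) := by
      rw [← hw]
      have : (FreeGroup.map emb).comp (jn A Y) = FreeGroup.map Subtype.val := by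
        ext1 y
        simp [jn, emb]
      exact DFunLike.congr_fun this _
    rw [h2]
    rfl
  rw [h1]
  exact (FreeGroup.map_injective hemb).comp ((fb_ker A Y).1.comp (FreeGroup.map_injective hwinj))

end TD

end Pool.Agent.H10.TL
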